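import Pool.Agent.Zk97.CB.A0

/-!
# Pencils of plane curves of degree `d`: the sum over the members away from the zeros of `D`
-/

set_option autoImplicit false
set_option linter.all false

open Polynomial

namespace Pool.Agent.Zk78.CB.LL

open Pool.Agent.Zk97.CB

section
variable {F : Type} [Field F] [Fintype F]

theorem ee_CC' (x y : F) (D : F[X]) : evalEval x y (C D) = D.eval x := by
  unfold evalEval
  rw [eval_C]

theorem ee_hm (x y : F) (D : F[X]) (b a : F[X][X]) :
    evalEval x y (hm D b a) = ∑ i ∈ Finset.range (D.natDegree + 1),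
      D.coeff i * evalEval x y b ^ i * evalEval x y a ^ (D.natDegree - i) := by
  unfold hm
  rw [← coe_evalEvalRingHom, map_sum]
  refine Finset.sum_congr rfl fun i _ => ?_
  rw [map_mul, map_mul, map_pow, map_pow, coe_evalEvalRingHom, evalEval_CC]

theorem hm_ne {x y : F} {D : F[X]} {b a : F[X][X]} (ha : evalEval x y a ≠ 0) :
    evalEval x y (hm D b a) = 0 ↔ D.eval (evalEval x y b / evalEval x y a) = 0 := by
  rw [ee_hm, eval_eq_sum_range]
  have h1 : ∑ i ∈ Finset.range (D.natDegree + 1),
      D.coeff i * evalEval x y b ^ i * evalEval x y a ^ (D.natDegree - i) =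
      evalEval x y a ^ D.natDegree * ∑ i ∈ Finset.range (D.natDegree + 1),
        D.coeff i * (evalEval x y b / evalEval x y a) ^ i := by
    rw [Finset.mul_sum]
    refine Finset.sum_congr rfl fun i hi => ?_
    have hi' : i ≤ D.natDegree := Nat.lt_succ_iff.1 (Finset.mem_range.1 hi)
    have h2 : evalEval x y a ^ D.natDegree = evalEval x y a ^ (D.natDegree - i) * evalEval x y a ^ i := by
      rw [← pow_add, Nat.sub_add_cancel hi']
    rw [h2, div_pow]
    field_simp
  rw [h1, mul_eq_zero, or_iff_right (pow_ne_zero _ ha)]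

theorem hm_zero {x y : F} {D : F[X]} {b a : F[X][X]} (hD : D ≠ 0) (ha : evalEval x y a = 0)
    (hb : evalEval x y b ≠ 0) : evalEval x y (hm D b a) ≠ 0 := by
  rw [ee_hm, Finset.sum_eq_single D.natDegree]
  · rw [Nat.sub_self, pow_zero, mul_one]
    exact mul_ne_zero (by rw [Ne, ← leadingCoeff, leadingCoeff_eq_zero]; exact hD) (pow_ne_zero _ hb)
  · intro i hi hne
    have hi' : i ≤ D.natDegree := Nat.lt_succ_iff.1 (Finset.mem_range.1 hi)
    rw [ha, zero_pow (by omega), mul_zero]
  · intro h
    exact absurd (Finset.mem_range.2 (by omega)) h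

open Classical in
/-- the number of the zeros of a polynomial -/
noncomputable def zs (D : F[X]) : ℝ := ∑ t : F, if D.eval t = 0 then 1 else 0

open Classical in
theorem zs_le {D : F[X]} (hD : D ≠ 0) : zs D ≤ D.natDegree := by
  unfold zs
  rw [← Finset.sum_filter, Finset.sum_const, nsmul_eq_mul, mul_one]
  have h1 : Finset.univ.filter (fun t : F => D.eval t = 0) ⊆ D.roots.toFinset := by
    intro t ht
    rw [Multiset.mem_toFinset, mem_roots hD]
    exact (Finset.mem_filter.1 ht).2
  have h2 := (Finset.card_le_card h1).trans (Multiset.toFinset_card_le _)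
  exact_mod_cast h2.trans (card_roots' D)

theorem zs_nonneg (D : F[X]) : 0 ≤ zs D := by
  unfold zs
  refine Finset.sum_nonneg fun t _ => ?_
  split_ifs <;> norm_num

theorem n1_CC (D : F[X]) : (n1 (C D : F[X][X]) : ℝ) = Nat.card F * zs D := by
  classical
  unfold n1 zs
  rw [card_filter, Fintype.sum_prod_type]
  have h1 : ∀ x : F, (∑ y : F, if evalEval (x, y).1 (x, y).2 (C D : F[X][X]) = 0 then (1 : ℝ) else 0) =
      Nat.card F * (if D.eval x = 0 then 1 else 0) := by
    intro x
    have h2 : ∀ y : F, (if evalEval (x, y).1 (x, y).2 (C D : F[X][X]) = 0 then (1 : ℝ) else 0) =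
        if D.eval x = 0 then 1 else 0 := fun y => by
      simp only [ee_CC']
    rw [Finset.sum_congr rfl fun y _ => h2 y, Finset.sum_const, Finset.card_univ, nsmul_eq_mul,
      Nat.card_eq_fintype_card]
  rw [Finset.sum_congr rfl fun x _ => h1 x, ← Finset.mul_sum]

open Classical in
/-- the sum over the zeros of `D` -/
theorem zero_sum (a b : F[X][X]) {D : F[X]} (hD : D ≠ 0) :
    |(∑ t : F, if D.eval t = 0 then
      (Nat.card {P : F × F // evalEval P.1 P.2 (b - C (C t) * a) = 0} : ℝ) else 0) - n1 (hm D b a)| ≤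
      (D.natDegree + 1) * n2 a b := by
  have h1 : ∀ t : F, (if D.eval t = 0 then
      (Nat.card {P : F × F // evalEval P.1 P.2 (b - C (C t) * a) = 0} : ℝ) else 0) =
      ∑ P : F × F, if D.eval t = 0 ∧ evalEval P.1 P.2 b = t * evalEval P.1 P.2 a then (1 : ℝ) else 0 := by
    intro t
    by_cases ht : D.eval t = 0
    · rw [if_pos ht, card_filter]
      refine Finset.sum_congr rfl fun P _ => if_congr ?_ rfl rfl
      rw [evalEval_sub, evalEval_mul, evalEval_CC, sub_eq_zero]
      exact ⟨fun h => ⟨ht, h⟩, fun h => h.2⟩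
    · rw [if_neg ht]
      refine (Finset.sum_eq_zero fun P _ => ?_).symm
      rw [if_neg (fun h => ht h.1)]
  rw [Finset.sum_congr rfl fun t _ => h1 t, Finset.sum_comm]
  unfold n1 n2
  rw [card_filter, card_filter, ← Finset.sum_sub_distrib, Finset.mul_sum]
  refine (Finset.abs_sum_le_sum_abs _ _).trans (Finset.sum_le_sum fun P _ => ?_)
  by_cases ha : evalEval P.1 P.2 a = 0
  · by_cases hb : evalEval P.1 P.2 b = 0
    · rw [if_pos (⟨ha, hb⟩ : evalEval P.1 P.2 a = 0 ∧ evalEval P.1 P.2 b = 0), mul_one]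
      have h2 : (∑ t : F, if D.eval t = 0 ∧ evalEval P.1 P.2 b = t * evalEval P.1 P.2 a then
          (1 : ℝ) else 0) = zs D := by
        unfold zs
        refine Finset.sum_congr rfl fun t _ => if_congr ?_ rfl rfl
        rw [ha, hb, mul_zero]
        exact ⟨fun h => h.1, fun h => ⟨h, rfl⟩⟩
      rw [h2, abs_le]
      have h3 := zs_le hD
      have h4 := zs_nonneg D
      constructor
      · split_ifs <;> linarith
      · split_ifs <;> linarith
    · rw [if_neg (fun h : evalEval P.1 P.2 a = 0 ∧ evalEval P.1 P.2 b = 0 => hb h.2), mul_zero,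
        if_neg (hm_zero hD ha hb), sub_zero]
      rw [Finset.sum_eq_zero, abs_zero]
      intro t _
      rw [if_neg]
      rintro ⟨-, h⟩
      rw [ha, mul_zero] at h
      exact hb h
  · rw [if_neg (fun h : evalEval P.1 P.2 a = 0 ∧ evalEval P.1 P.2 b = 0 => ha h.1), mul_zero]
    have h2 : (∑ t : F, if D.eval t = 0 ∧ evalEval P.1 P.2 b = t * evalEval P.1 P.2 a then
        (1 : ℝ) else 0) = if evalEval P.1 P.2 (hm D b a) = 0 then 1 else 0 := by
      rw [Finset.sum_eq_single (evalEval P.1 P.2 b / evalEval P.1 P.2 a)]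
      · refine if_congr ?_ rfl rfl
        rw [hm_ne ha, div_mul_cancel₀ _ ha]
        exact ⟨fun h => h.1, fun h => ⟨h, rfl⟩⟩
      · intro t _ ht
        rw [if_neg]
        rintro ⟨-, h⟩
        apply ht
        rw [h, mul_div_cancel_right₀ _ ha]
      · intro h
        exact absurd (Finset.mem_univ _) h
    rw [h2, sub_self, abs_zero]

/-- the number of the points at infinity -/
noncomputable def inf (d : ℕ) (a b : F[X][X]) (t : F) : ℝ :=
  Nat.card {y : F // (Pool.Agent.Zk97.CB.top d (b - C (C t) * a)).eval y = 0}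

theorem top_sub' (d : ℕ) (a b : F[X][X]) (t : F) :
    Pool.Agent.Zk97.CB.top d (b - C (C t) * a) =
      Pool.Agent.Zk97.CB.top d b - C t * Pool.Agent.Zk97.CB.top d a := by
  ext i
  rw [coeff_sub, coeff_C_mul, Pool.Agent.Zk97.CB.top_coeff, Pool.Agent.Zk97.CB.top_coeff, Pool.Agent.Zk97.CB.top_coeff]
  split_ifs
  · rw [coeff_sub, coeff_C_mul, coeff_sub, coeff_C_mul]
  · rw [mul_zero, sub_zero]

theorem inf_bound {d : ℕ} {a b : F[X][X]} (hb : IsPlane d b) (ha : DegLe d a)
    (had : a.coeff d = 0) (t : F) : 0 ≤ inf d a b t ∧ inf d a b t ≤ d := by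
  classical
  have hp : IsPlane d (b - C (C t) * a) := by
    refine ⟨hb.1.sub (ha.cmul t), ?_⟩
    rw [coeff_sub, coeff_C_mul, had, mul_zero, sub_zero, hb.2]
  obtain ⟨h1, h2⟩ := hp.top_monic
  refine ⟨Nat.cast_nonneg _, ?_⟩
  unfold inf
  rw [card_filter]
  have h3 := zs_le h1.ne_zero
  rw [h2] at h3
  exact h3

theorem inf_sum {d : ℕ} (hd : 0 < d) {a b : F[X][X]} (hb : IsPlane d b) (ha : DegLe d a)
    (hco : IsCoprime (Pool.Agent.Zk97.CB.top d a) (Pool.Agent.Zk97.CB.top d b)) :
    |∑ t : F, (inf d a b t - 1)| ≤ d := by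
  classical
  set A := Pool.Agent.Zk97.CB.top d a with hA
  set B := Pool.Agent.Zk97.CB.top d b with hB
  have hA0 : A ≠ 0 := by
    intro h0
    rw [h0, isCoprime_zero_left] at hco
    have h1 := natDegree_eq_zero_of_isUnit hco
    rw [hB, hb.top_monic.2] at h1
    omega
  have hAd : A.natDegree ≤ d := by
    rw [natDegree_le_iff_coeff_eq_zero]
    intro i hi
    rw [hA, Pool.Agent.Zk97.CB.top_coeff, if_neg (by omega)]
  have h1 : ∀ t : F, inf d a b t = ∑ y : F, if B.eval y = t * A.eval y then (1 : ℝ) else 0 := by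
    intro t
    unfold inf
    rw [card_filter]
    refine Finset.sum_congr rfl fun y _ => if_congr ?_ rfl rfl
    rw [top_sub', ← hA, ← hB, eval_sub, eval_mul, eval_C, sub_eq_zero]
  have h2 : ∑ t : F, inf d a b t = Fintype.card F - zs A := by
    rw [Finset.sum_congr rfl fun t _ => h1 t, Finset.sum_comm]
    have h3 : ∀ y : F, (∑ t : F, if B.eval y = t * A.eval y then (1 : ℝ) else 0) =
        1 - if A.eval y = 0 then (1 : ℝ) else 0 := by
      intro y
      by_cases hy : A.eval y = 0
      · rw [if_pos hy, sub_self]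
        refine Finset.sum_eq_zero fun t _ => ?_
        rw [if_neg]
        rw [hy, mul_zero]
        intro hBy
        obtain ⟨u, v, huv⟩ := hco
        have h4 := congrArg (Polynomial.eval y) huv
        rw [eval_add, eval_mul, eval_mul, hy, hBy, mul_zero, mul_zero, add_zero, eval_one] at h4
        exact zero_ne_one h4
      · rw [if_neg hy, sub_zero, Finset.sum_eq_single (B.eval y / A.eval y)]
        · rw [if_pos (by rw [div_mul_cancel₀ _ hy])]
        · intro t _ ht
          rw [if_neg]
          intro h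
          apply ht
          rw [h, mul_div_cancel_right₀ _ hy]
        · intro h
          exact absurd (Finset.mem_univ _) h
    rw [Finset.sum_congr rfl fun y _ => h3 y, Finset.sum_sub_distrib, Finset.sum_const,
      Finset.card_univ, nsmul_eq_mul, mul_one]
    rfl
  rw [Finset.sum_sub_distrib, h2, Finset.sum_const, Finset.card_univ, nsmul_eq_mul, mul_one]
  have h5 := zs_le hA0
  have h6 := zs_nonneg A
  have h7 : (A.natDegree : ℝ) ≤ d := by exact_mod_cast hAd
  rw [abs_le]
  constructor <;> linarith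

end

theorem t_L : StL := by
  classical
  intro d e hd
  refine ⟨(e + 1) + d + e * (d + 1), by positivity, ?_⟩
  intro F _ _ a b D hb ha had hco hD hDe
  set q : ℝ := (Nat.card F : ℝ) with hq
  have he : (D.natDegree : ℝ) ≤ e := by exact_mod_cast hDe
  have hz0 := zs_nonneg D
  have hz1 := zs_le hD
  -- decomposition
  have h1 : ∀ t : F, (if D.eval t ≠ 0 then nqP d F (b - C (C t) * a) else 0) =
      nq F (b - C (C t) * a) + (inf d a b t - 1) -
        (if D.eval t = 0 then (Nat.card {P : F × F // evalEval P.1 P.2 (b - C (C t) * a) = 0} : ℝ)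
          else 0) + q * (if D.eval t = 0 then 1 else 0) -
        (if D.eval t = 0 then (inf d a b t - 1) else 0) := by
    intro t
    by_cases ht : D.eval t = 0
    · rw [if_neg (not_not.2 ht), if_pos ht, if_pos ht, if_pos ht]
      unfold nq
      ring
    · rw [if_pos ht, if_neg ht, if_neg ht, if_neg ht]
      unfold nqP inf
      ring
  have h2 : (∑ t : F, if D.eval t ≠ 0 then nqP d F (b - C (C t) * a) else 0) =
      (q * n2 a b - n1 a) + ∑ t : F, (inf d a b t - 1) -
      (∑ t : F, if D.eval t = 0 then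
        (Nat.card {P : F × F // evalEval P.1 P.2 (b - C (C t) * a) = 0} : ℝ) else 0) +
      q * zs D - ∑ t : F, (if D.eval t = 0 then (inf d a b t - 1) else 0) := by
    rw [Finset.sum_congr rfl fun t _ => h1 t, Finset.sum_sub_distrib, Finset.sum_add_distrib,
      Finset.sum_sub_distrib, Finset.sum_add_distrib, line_sum, ← Finset.mul_sum]
    rfl
  have h3 := zero_sum a b hD
  have h4 := inf_sum hd hb ha hco
  have h5 : |∑ t : F, (if D.eval t = 0 then (inf d a b t - 1) else 0)| ≤ e * (d + 1) := by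
    refine (Finset.abs_sum_le_sum_abs _ _).trans ?_
    have h6 : ∀ t : F, |if D.eval t = 0 then (inf d a b t - 1) else 0| ≤
        (if D.eval t = 0 then (1 : ℝ) else 0) * (d + 1) := by
      intro t
      obtain ⟨g1, g2⟩ := inf_bound hb ha had t
      have hd0 : (0 : ℝ) ≤ d := Nat.cast_nonneg _
      split_ifs with ht
      · rw [one_mul, abs_le]
        constructor <;> linarith
      · rw [abs_zero, zero_mul]
    refine (Finset.sum_le_sum fun t _ => h6 t).trans ?_
    rw [← Finset.sum_mul]
    refine mul_le_mul_of_nonneg_right ?_ (by positivity)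
    exact hz1.trans he
  have h7 : (n1 (C D : F[X][X]) : ℝ) = q * zs D := n1_CC D
  rw [h2, h7]
  set S1 := (∑ t : F, if D.eval t = 0 then
        (Nat.card {P : F × F // evalEval P.1 P.2 (b - C (C t) * a) = 0} : ℝ) else 0) with hS1
  set S2 := ∑ t : F, (inf d a b t - 1) with hS2
  set S3 := ∑ t : F, (if D.eval t = 0 then (inf d a b t - 1) else 0) with hS3
  have hn2 : (0 : ℝ) ≤ n2 a b := Nat.cast_nonneg _
  have h8 : (q * n2 a b - n1 a) + S2 - S1 + q * zs D - S3 -
      (q * n2 a b - n1 a - n1 (hm D b a) + q * zs D) = S2 - (S1 - n1 (hm D b a)) - S3 := by ring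
  rw [h8]
  have h9 : ((D.natDegree : ℝ) + 1) * n2 a b ≤ (e + 1) * n2 a b :=
    mul_le_mul_of_nonneg_right (by linarith) hn2
  have he0 : (0 : ℝ) ≤ e := Nat.cast_nonneg _
  have hd0 : (0 : ℝ) ≤ d := Nat.cast_nonneg _
  rw [abs_le] at h3 h4 h5 ⊢
  have h10 : (0 : ℝ) ≤ (d + e * (d + 1)) * n2 a b := by positivity
  constructor <;> nlinarith

end Pool.Agent.Zk78.CB.LL

namespace Pool.Agent.Zk78.CB

theorem t_L : Pool.Agent.Zk97.CB.StL := LL.t_L

end Pool.Agent.Zk78.CB
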