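import Pool.Agent.Zk78.CB.Y0
import Pool.Agent.R410.PW.Weil

/-!
# Smooth plane curves: the uniform bound of Weil
-/

set_option autoImplicit false
set_option linter.all false

open Polynomial

namespace Pool.Agent.Zk78.CB

open Pool.Agent.Zk97.CB Pool.Agent.R410.PW

theorem t_Y (hS : StS) : StY := by
  intro d hd
  refine ⟨(WC d d ((d + (d - 1)) * d) : ℝ), Nat.cast_nonneg _, ?_⟩
  intro F _ _ G hG
  have hirr : Irreducible G := hS F d hd G hG
  have hirrk : Irreducible (G.map (mapRingHom (algebraMap F (AlgebraicClosure F)))) :=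
    hS (AlgebraicClosure F) d hd _ (good_map _ hG)
  have hmon := plane_monic hG.1
  have hdeg := plane_natDegree hG.1
  obtain ⟨A, B, D, hAB, hD, hδ⟩ := exists_D' hd hmon hdeg (plane_coeff_deg hG.1) (good_der hd hG)
    hirr
  have key := weil (AlgebraicClosure F) hmon (by rw [hdeg]; exact hd) hAB hD hδ
    (plane_coeff_deg hG.1) hirrk
  rw [hdeg] at key
  have hcard : Nat.card {P : F × F // evalEval P.1 P.2 G = 0} =
      {z : F × F | evalEval z.1 z.2 G = 0}.ncard := rfl
  rw [hcard]
  exact key

end Pool.Agent.Zk78.CB
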