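import Pool.Agent.Zk97.CB.Stm

/-!
# Pencils of `C_ab` curves: elementary facts for the bound of Weil
-/

set_option autoImplicit false
set_option linter.all false

open Polynomial

namespace Pool.Agent.Zk78.CB

open Pool.Agent.Zk97.CB

section

variable {R : Type} [CommRing R] {l n : ℕ} {G : R[X][X]}

theorem rest_coeff (hG : IsCab l n G) {i : ℕ} (hi : l ≤ i) :
    (G - (X ^ l - C (X ^ n))).coeff i = 0 := by
  ext j
  rw [coeff_zero]
  by_contra h
  have h1 := hG i j h
  have h2 : l * n ≤ n * i := by rw [mul_comm]; exact Nat.mul_le_mul_left n hi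
  omega

theorem cab_eq (hG : IsCab l n G) :
    G = X ^ l + ((G - (X ^ l - C (X ^ n))) - C (X ^ n)) := by ring

theorem rest_deg [Nontrivial R] (hl : 0 < l) (hG : IsCab l n G) :
    ((G - (X ^ l - C (X ^ n))) - C (X ^ n)).degree < (l : WithBot ℕ) := by
  rw [degree_lt_iff_coeff_zero]
  intro i hi
  rw [coeff_sub, rest_coeff hG hi, coeff_C, if_neg (by omega), sub_zero]

theorem cab_monic [Nontrivial R] (hl : 0 < l) (hG : IsCab l n G) : G.Monic := by
  rw [cab_eq hG]
  exact monic_X_pow_add (rest_deg hl hG)

theorem cab_natDegree [Nontrivial R] (hl : 0 < l) (hG : IsCab l n G) : G.natDegree = l := by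
  rw [cab_eq hG]
  have h1 : ((X : R[X][X]) ^ l).degree = (l : WithBot ℕ) := degree_X_pow l
  exact natDegree_eq_of_degree_eq_some (by
    rw [degree_add_eq_left_of_degree_lt (by rw [h1]; exact rest_deg hl hG), h1])

theorem cab_coeff_deg (hl : 0 < l) (hG : IsCab l n G) (i : ℕ) : (G.coeff i).natDegree ≤ n := by
  rw [natDegree_le_iff_coeff_eq_zero]
  intro j hj
  have h1 : (G.coeff i).coeff j = ((G - (X ^ l - C (X ^ n))).coeff i).coeff j +
      (((X : R[X][X]) ^ l).coeff i).coeff j - ((C (X ^ n) : R[X][X]).coeff i).coeff j := by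
    rw [coeff_sub, coeff_sub, coeff_sub, coeff_sub]
    ring
  rw [h1]
  have h2 : ((G - (X ^ l - C (X ^ n))).coeff i).coeff j = 0 := by
    by_contra h
    have h3 := hG i j h
    have h4 : l * n ≤ l * j := Nat.mul_le_mul_left l hj.le
    omega
  have h3 : (((X : R[X][X]) ^ l).coeff i).coeff j = 0 := by
    rw [coeff_X_pow]
    split_ifs
    · rw [coeff_one, if_neg (by omega)]
    · exact coeff_zero _
  have h4 : ((C (X ^ n) : R[X][X]).coeff i).coeff j = 0 := by
    rw [coeff_C]
    split_ifs
    · rw [coeff_X_pow, if_neg (by omega)]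
    · exact coeff_zero _
  rw [h2, h3, h4]
  ring

theorem cab_map {S : Type} [CommRing S] (φ : R →+* S) (hG : IsCab l n G) :
    IsCab l n (G.map (mapRingHom φ)) := by
  intro i j h
  apply hG i j
  intro h0
  apply h
  have h1 : G.map (mapRingHom φ) - (X ^ l - C (X ^ n)) =
      (G - (X ^ l - C (X ^ n))).map (mapRingHom φ) := by
    simp
  rw [h1, coeff_map, coe_mapRingHom, coeff_map, h0, map_zero]

end

theorem natDegree_det_le {F ι : Type} [CommRing F] [Fintype ι] [DecidableEq ι]
    (M : Matrix ι ι F[X]) {d : ℕ} (h : ∀ i j, (M i j).natDegree ≤ d) :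
    M.det.natDegree ≤ Fintype.card ι * d := by
  rw [Matrix.det_apply']
  refine natDegree_sum_le_of_forall_le _ _ (fun σ _ => ?_)
  refine natDegree_mul_le.trans ?_
  rw [natDegree_intCast, zero_add]
  refine (natDegree_prod_le _ _).trans ?_
  refine (Finset.sum_le_card_nsmul _ _ d (fun i _ => h _ _)).trans ?_
  rw [smul_eq_mul, Finset.card_univ]

theorem natDegree_resultant_le {F : Type} [CommRing F] (f g : F[X][X]) (a b : ℕ) {d : ℕ}
    (hf : ∀ i, (f.coeff i).natDegree ≤ d) (hg : ∀ i, (g.coeff i).natDegree ≤ d) :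
    (resultant f g a b).natDegree ≤ (a + b) * d := by
  have h1 := natDegree_det_le (sylvester f g a b) (d := d) (by
    intro i j
    unfold sylvester
    rw [Matrix.of_apply]
    refine Fin.addCases (fun j₁ => ?_) (fun j₁ => ?_) j
    · rw [Fin.addCases_left]
      split_ifs
      · exact hg _
      · simp
    · rw [Fin.addCases_right]
      split_ifs
      · exact hf _
      · simp)
  rw [Fintype.card_fin] at h1
  exact h1

theorem deriv_coeff_deg {F : Type} [CommRing F] (f : F[X][X]) {d : ℕ}
    (hf : ∀ i, (f.coeff i).natDegree ≤ d) (i : ℕ) : ((derivative f).coeff i).natDegree ≤ d := by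
  rw [coeff_derivative]
  have h1 : ((i : F[X]) + 1) = ((i + 1 : ℕ) : F[X]) := by push_cast; ring
  rw [h1]
  refine natDegree_mul_le.trans ?_
  rw [natDegree_natCast, add_zero]
  exact hf _

/-- a nonzero polynomial in `x` in the ideal generated by `G` and its derivative -/
theorem exists_D {F : Type} [Field F] {l n : ℕ} (hl : 0 < l) {G : F[X][X]} (hlF : ((l : ℕ) : F) ≠ 0)
    (hG : IsCab l n G) (hirr : Irreducible G) :
    ∃ (A B : F[X][X]) (D : F[X]), A * G + B * derivative G = C D ∧ D ≠ 0 ∧
      D.natDegree ≤ (l + (l - 1)) * n := by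
  have hmon := cab_monic hl hG
  have hdeg := cab_natDegree hl hG
  have hlc : (derivative G).coeff (l - 1) = C ((l : ℕ) : F) := by
    rw [coeff_derivative, show l - 1 + 1 = l by omega]
    have h1 : G.coeff l = 1 := by
      have := hmon.coeff_natDegree
      rwa [hdeg] at this
    rw [h1, one_mul]
    have h2 : ((l - 1 : ℕ) : F[X]) + 1 = ((l : ℕ) : F[X]) := by
      rw [← Nat.cast_succ]
      congr 1
      omega
    rw [h2, map_natCast]
  have hlc0 : (derivative G).coeff (l - 1) ≠ 0 := by
    rw [hlc]
    exact C_ne_zero.2 hlF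
  have hdd : (derivative G).natDegree ≤ l - 1 := by
    have := natDegree_derivative_le G
    rwa [hdeg] at this
  have hdd' : (derivative G).natDegree = l - 1 := le_antisymm hdd (le_natDegree_of_ne_zero hlc0)
  obtain ⟨p, q, -, -, e⟩ := exists_mul_add_mul_eq_C_resultant G (derivative G) (m := l) (n := l - 1)
    hdeg.le hdd (Or.inl (by omega))
  refine ⟨p, q, resultant G (derivative G) l (l - 1), ?_, ?_, ?_⟩
  · rw [mul_comm p, mul_comm q, e]
  · intro h0
    have hinj : Function.Injective (algebraMap F[X] (RatFunc F)) :=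
      IsFractionRing.injective F[X] (RatFunc F)
    have h1 := resultant_map_map G (derivative G) l (l - 1) (algebraMap F[X] (RatFunc F))
    rw [h0, map_zero] at h1
    have h2 : (G.map (algebraMap F[X] (RatFunc F))).natDegree = l := by
      rw [natDegree_map_eq_of_injective hinj, hdeg]
    have h3 : ((derivative G).map (algebraMap F[X] (RatFunc F))).natDegree = l - 1 := by
      rw [natDegree_map_eq_of_injective hinj, hdd']
    have h4 : resultant (G.map (algebraMap F[X] (RatFunc F)))
        ((derivative G).map (algebraMap F[X] (RatFunc F))) = 0 := by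
      rw [h2, h3]
      exact h1
    rw [resultant_eq_zero_iff] at h4
    apply h4.2
    have hirrK : Irreducible (G.map (algebraMap F[X] (RatFunc F))) :=
      (hmon.irreducible_iff_irreducible_map_fraction_map (K := RatFunc F)).1 hirr
    rw [hirrK.coprime_iff_not_dvd]
    intro hdvd
    have h5 : (derivative G).map (algebraMap F[X] (RatFunc F)) ≠ 0 := by
      rw [Ne, Polynomial.map_eq_zero_iff hinj]
      intro h
      rw [h, coeff_zero] at hlc0
      exact hlc0 rfl
    have h6 := natDegree_le_of_dvd hdvd h5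
    rw [h2, h3] at h6
    omega
  · exact natDegree_resultant_le _ _ _ _ (cab_coeff_deg hl hG)
      (deriv_coeff_deg _ (cab_coeff_deg hl hG))

end Pool.Agent.Zk78.CB
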