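import Pool.Agent.Zk97.CB.GDefs
import Pool.Agent.Zk78.CB.Z0
import Pool.Agent.R410.PW.Weil

/-!
# The uniform bound of Weil for absolutely irreducible plane curves which are monic in `y`
-/

set_option autoImplicit false
set_option linter.all false

open Polynomial

namespace Pool.Agent.Zk78.CB

open Pool.Agent.Zk97.CB Pool.Agent.R410.PW

/-- a nonzero polynomial in `x` in the ideal generated by `G` and its derivative -/
theorem exists_D' {F : Type} [Field F] {l n : ℕ} (hl : 0 < l) {G : F[X][X]}
    (hlF : ((l : ℕ) : F) ≠ 0) (hmon : G.Monic) (hdeg : G.natDegree = l)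
    (hc : ∀ i, (G.coeff i).natDegree ≤ n) (hirr : Irreducible G) :
    ∃ (A B : F[X][X]) (D : F[X]), A * G + B * derivative G = C D ∧ D ≠ 0 ∧
      D.natDegree ≤ (l + (l - 1)) * n := by
  have hlc : (derivative G).coeff (l - 1) = C ((l : ℕ) : F) := by
    rw [coeff_derivative, show l - 1 + 1 = l by omega]
    have h1 : G.coeff l = 1 := by
      have := hmon.coeff_natDegree
      rwa [hdeg] at this
    rw [h1, one_mul]
    have h2 : ((l - 1 : ℕ) : F[X]) + 1 = ((l : ℕ) : F[X]) := by
      rw [← Nat.cast_succ]
      congr 1
      omega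
    rw [h2, map_natCast]
  have hlc0 : (derivative G).coeff (l - 1) ≠ 0 := by
    rw [hlc]
    exact C_ne_zero.2 hlF
  have hdd : (derivative G).natDegree ≤ l - 1 := by
    have := natDegree_derivative_le G
    rwa [hdeg] at this
  have hdd' : (derivative G).natDegree = l - 1 := le_antisymm hdd (le_natDegree_of_ne_zero hlc0)
  obtain ⟨p, q, -, -, e⟩ := exists_mul_add_mul_eq_C_resultant G (derivative G) (m := l) (n := l - 1)
    hdeg.le hdd (Or.inl (by omega))
  refine ⟨p, q, resultant G (derivative G) l (l - 1), ?_, ?_, ?_⟩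
  · rw [mul_comm p, mul_comm q, e]
  · intro h0
    have hinj : Function.Injective (algebraMap F[X] (RatFunc F)) :=
      IsFractionRing.injective F[X] (RatFunc F)
    have h1 := resultant_map_map G (derivative G) l (l - 1) (algebraMap F[X] (RatFunc F))
    rw [h0, map_zero] at h1
    have h2 : (G.map (algebraMap F[X] (RatFunc F))).natDegree = l := by
      rw [natDegree_map_eq_of_injective hinj, hdeg]
    have h3 : ((derivative G).map (algebraMap F[X] (RatFunc F))).natDegree = l - 1 := by
      rw [natDegree_map_eq_of_injective hinj, hdd']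
    have h4 : resultant (G.map (algebraMap F[X] (RatFunc F)))
        ((derivative G).map (algebraMap F[X] (RatFunc F))) = 0 := by
      rw [h2, h3]
      exact h1
    rw [resultant_eq_zero_iff] at h4
    apply h4.2
    have hirrK : Irreducible (G.map (algebraMap F[X] (RatFunc F))) :=
      (hmon.irreducible_iff_irreducible_map_fraction_map (K := RatFunc F)).1 hirr
    rw [hirrK.coprime_iff_not_dvd]
    intro hdvd
    have h5 : (derivative G).map (algebraMap F[X] (RatFunc F)) ≠ 0 := by
      rw [Ne, Polynomial.map_eq_zero_iff hinj]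
      intro h
      rw [h, coeff_zero] at hlc0
      exact hlc0 rfl
    have h6 := natDegree_le_of_dvd hdvd h5
    rw [h2, h3] at h6
    omega
  · exact natDegree_resultant_le _ _ _ _ hc (deriv_coeff_deg _ hc)

theorem t_V : StV := by
  intro l n hl
  refine ⟨(WC l n ((l + (l - 1)) * n) : ℝ), Nat.cast_nonneg _, ?_⟩
  intro F _ _ G hmon hdeg hc hlF habs
  have hirr : Irreducible G := by
    have h := habs F (RingHom.id F)
    have e : G.map (mapRingHom (RingHom.id F)) = G := by
      rw [mapRingHom_id, Polynomial.map_id]
    rwa [e] at h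
  have hirrk : Irreducible (G.map (mapRingHom (algebraMap F (AlgebraicClosure F)))) :=
    habs (AlgebraicClosure F) _
  obtain ⟨A, B, D, hAB, hD, hδ⟩ := exists_D' hl hlF hmon hdeg hc hirr
  have key := weil (AlgebraicClosure F) hmon (by rw [hdeg]; exact hl) hAB hD hδ hc hirrk
  rw [hdeg] at key
  have hcard : Nat.card {P : F × F // evalEval P.1 P.2 G = 0} =
      {z : F × F | evalEval z.1 z.2 G = 0}.ncard := rfl
  rw [hcard]
  exact key

end Pool.Agent.Zk78.CB
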