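import Pool.Agent.Zk97.CB.P4
import Pool.Agent.Zk52.CB.D

/-!
# The open curve `A ≠ 0` of the generic member of a pencil: a principal ideal domain
-/

set_option autoImplicit false
set_option linter.all false

open Polynomial

namespace Pool.Agent.Zk78.CB

open Pool.Agent.Zk97.CB

theorem e1_core (hD : StD) (M K : Type) [Field M] [Field K] [Algebra M K] (w : K)
    (A B : M[X][X]) (l : ℕ) (h : GP l A B) (hw : Transcendental M w)
    (hK : ∀ z : K, ∃ p q : M[X], aeval w q ≠ 0 ∧ z * aeval w q = aeval w p)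
    (hirr : Irreducible (ff w A B))
    (T : Type) [CommRing T] [Algebra (AdjoinRoot (ff w A B)) T]
    [IsLocalization.Away (th w A B A) T] : IsDomain T ∧ IsPrincipalIdealRing T := by
  have hdom : IsDomain (AdjoinRoot (ff w A B)) := AdjoinRoot.isDomain_of_prime hirr.prime
  have ha0 : th w A B A ≠ 0 := h.thA_ne hw hK
  have hle : Submonoid.powers (th w A B A) ≤ nonZeroDivisors (AdjoinRoot (ff w A B)) :=
    powers_le_nonZeroDivisors_of_noZeroDivisors ha0
  have hT : IsDomain T := IsLocalization.isDomain_of_le_nonZeroDivisors _ hle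
  refine ⟨hT, ?_⟩
  have haT : IsUnit (algebraMap (AdjoinRoot (ff w A B)) T (th w A B A)) :=
    IsLocalization.map_units T (⟨th w A B A, Submonoid.mem_powers _⟩ :
      Submonoid.powers (th w A B A))
  apply IsPrincipalIdealRing.of_prime
  intro P hP
  by_cases h0 : P = ⊥
  · rw [h0]
    exact bot_isPrincipal
  have hp : (P.comap (algebraMap (AdjoinRoot (ff w A B)) T)).IsPrime := Ideal.comap_isPrime _ _
  have hA : th w A B A ∉ P.comap (algebraMap (AdjoinRoot (ff w A B)) T) := by
    intro h1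
    exact hP.ne_top (Ideal.eq_top_of_isUnit_mem _ (Ideal.mem_comap.1 h1) haT)
  -- every element of `P` comes from the contraction, up to a unit
  have hex : ∀ z : T, ∃ (s : AdjoinRoot (ff w A B)) (j : ℕ),
      z * algebraMap (AdjoinRoot (ff w A B)) T (th w A B A) ^ j =
        algebraMap (AdjoinRoot (ff w A B)) T s := by
    intro z
    obtain ⟨⟨s, ⟨y, j, hy⟩⟩, hz⟩ := IsLocalization.surj (Submonoid.powers (th w A B A)) z
    refine ⟨s, j, ?_⟩
    rw [← map_pow]
    have hy' : th w A B A ^ j = y := hy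
    rw [hy']
    exact hz
  have hp0 : P.comap (algebraMap (AdjoinRoot (ff w A B)) T) ≠ ⊥ := by
    intro h1
    apply h0
    rw [eq_bot_iff]
    intro z hz
    obtain ⟨s, j, hs⟩ := hex z
    have h2 : s ∈ P.comap (algebraMap (AdjoinRoot (ff w A B)) T) := by
      rw [Ideal.mem_comap, ← hs]
      exact P.mul_mem_right _ hz
    rw [h1, Ideal.mem_bot] at h2
    rw [h2, map_zero] at hs
    rw [Ideal.mem_bot]
    exact (mul_eq_zero.1 hs).resolve_right (pow_ne_zero j haT.ne_zero)
  obtain ⟨π, hπ⟩ := h.H2 hD hw hK hdom _ hp hp0 hA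
  refine ⟨⟨algebraMap (AdjoinRoot (ff w A B)) T (th w A B π), ?_⟩⟩
  apply le_antisymm
  · intro z hz
    obtain ⟨s, j, hs⟩ := hex z
    obtain ⟨D, k, Q, hD0, h1⟩ := h1_exp h.pen hw hK s
    have h2 : Q ∈ (P.comap (algebraMap (AdjoinRoot (ff w A B)) T)).comap (th w A B) := by
      rw [Ideal.mem_comap, Ideal.mem_comap, ← h1, map_mul, ← hs]
      exact P.mul_mem_left _ (P.mul_mem_right _ hz)
    rw [hπ, Ideal.mem_span_singleton] at h2
    obtain ⟨R, hR⟩ := h2
    have h3 : IsUnit (algebraMap (AdjoinRoot (ff w A B)) T (ct w A B (aeval w D))) :=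
      (ct_unit w A B (aeval_ne hw hD0)).map _
    have h4 : algebraMap (AdjoinRoot (ff w A B)) T (th w A B π) *
        algebraMap (AdjoinRoot (ff w A B)) T (th w A B R) =
        (algebraMap (AdjoinRoot (ff w A B)) T (ct w A B (aeval w D)) *
          algebraMap (AdjoinRoot (ff w A B)) T (th w A B A) ^ k *
          algebraMap (AdjoinRoot (ff w A B)) T (th w A B A) ^ j) * z := by
      rw [← map_mul, ← map_mul, ← hR, ← h1, map_mul, map_mul, map_pow, ← hs]
      ring
    have h5 : IsUnit (algebraMap (AdjoinRoot (ff w A B)) T (ct w A B (aeval w D)) *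
          algebraMap (AdjoinRoot (ff w A B)) T (th w A B A) ^ k *
          algebraMap (AdjoinRoot (ff w A B)) T (th w A B A) ^ j) :=
      (h3.mul (haT.pow k)).mul (haT.pow j)
    obtain ⟨u, hu⟩ := h5
    rw [← hu] at h4
    show z ∈ Ideal.span {algebraMap (AdjoinRoot (ff w A B)) T (th w A B π)}
    rw [Ideal.mem_span_singleton]
    refine ⟨algebraMap (AdjoinRoot (ff w A B)) T (th w A B R) * ↑u⁻¹, ?_⟩
    rw [← mul_assoc, h4, mul_comm ((u : T) * z), ← mul_assoc, Units.inv_mul, one_mul]
  · show Ideal.span {algebraMap (AdjoinRoot (ff w A B)) T (th w A B π)} ≤ P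
    rw [Ideal.span_le, Set.singleton_subset_iff]
    have h1 : π ∈ (P.comap (algebraMap (AdjoinRoot (ff w A B)) T)).comap (th w A B) := by
      rw [hπ]
      exact Ideal.mem_span_singleton_self π
    exact h1

/-- **E1**: the ring of the open curve `A ≠ 0` is a principal ideal domain -/
theorem t_E1 : ∀ (M K : Type) [Field M] [Field K] [Algebra M K] (w : K) (A B : M[X][X]) (l : ℕ)
    (h : GP l A B), Transcendental M w →
    (∀ z : K, ∃ p q : M[X], aeval w q ≠ 0 ∧ z * aeval w q = aeval w p) →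
    Irreducible (ff w A B) →
    ∀ (T : Type) [CommRing T] [Algebra (AdjoinRoot (ff w A B)) T]
      [IsLocalization.Away (th w A B A) T], IsDomain T ∧ IsPrincipalIdealRing T :=
  fun M K _ _ _ w A B l h hw hK hirr T _ _ _ =>
    e1_core Pool.Agent.Zk52.CB.t_D M K w A B l h hw hK hirr T

end Pool.Agent.Zk78.CB
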