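import Pool.Agent.Zk97.CB.PDefs
import Pool.Agent.Zk78.CB.Z0

/-!
# Smooth plane curves: elementary facts for the bound of Weil
-/

set_option autoImplicit false
set_option linter.all false

open Polynomial

namespace Pool.Agent.Zk78.CB

open Pool.Agent.Zk97.CB

section

variable {R : Type} [CommRing R] {d : ℕ} {G : R[X][X]}

theorem plane_coeff_zero (hG : IsPlane d G) {i : ℕ} (hi : d < i) : G.coeff i = 0 := by
  ext j
  rw [coeff_zero]
  by_contra h
  have := hG.1 i j h
  omega

theorem plane_natDegree [Nontrivial R] (hG : IsPlane d G) : G.natDegree = d := by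
  refine le_antisymm ?_ ?_
  · rw [natDegree_le_iff_coeff_eq_zero]
    intro i hi
    exact plane_coeff_zero hG hi
  · refine le_natDegree_of_ne_zero ?_
    rw [hG.2]
    exact one_ne_zero

theorem plane_monic [Nontrivial R] (hG : IsPlane d G) : G.Monic := by
  rw [Monic, leadingCoeff, plane_natDegree hG, hG.2]

theorem plane_coeff_deg (hG : IsPlane d G) (i : ℕ) : (G.coeff i).natDegree ≤ d := by
  rw [natDegree_le_iff_coeff_eq_zero]
  intro j hj
  by_contra h
  have := hG.1 i j h
  omega

theorem top_coeff (P : R[X][X]) (i : ℕ) :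
    (top d P).coeff i = if i ≤ d then (P.coeff i).coeff (d - i) else 0 := by
  unfold Pool.Agent.Zk97.CB.top
  rw [finsetSum_coeff]
  simp only [coeff_C_mul, coeff_X_pow]
  by_cases hi : i ≤ d
  · rw [if_pos hi, Finset.sum_eq_single i]
    · simp
    · intro j _ hj
      rw [if_neg (fun h => hj h.symm), mul_zero]
    · intro h
      exact absurd (Finset.mem_range.2 (by omega)) h
  · rw [if_neg hi]
    refine Finset.sum_eq_zero fun j hj => ?_
    rw [Finset.mem_range] at hj
    rw [if_neg (by omega), mul_zero]

theorem top_coeff_d (hG : IsPlane d G) : (top d G).coeff d = 1 := by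
  rw [top_coeff, if_pos le_rfl, Nat.sub_self, hG.2, coeff_one_zero]

theorem dx_coeff (P : R[X][X]) (i : ℕ) : (dx P).coeff i = derivative (P.coeff i) := by
  unfold Pool.Agent.Zk97.CB.dx
  rw [finsetSum_coeff]
  simp only [coeff_C_mul, coeff_X_pow]
  by_cases hi : i ≤ P.natDegree
  · rw [Finset.sum_eq_single i]
    · simp
    · intro j _ hj
      rw [if_neg (fun h => hj h.symm), mul_zero]
    · intro h
      exact absurd (Finset.mem_range.2 (by omega)) h
  · rw [coeff_eq_zero_of_natDegree_lt (by omega), derivative_zero]
    refine Finset.sum_eq_zero fun j hj => ?_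
    rw [Finset.mem_range] at hj
    rw [if_neg (by omega), mul_zero]

theorem dx_map {S : Type} [CommRing S] (φ : R →+* S) (P : R[X][X]) :
    dx (P.map (mapRingHom φ)) = (dx P).map (mapRingHom φ) := by
  ext i : 1
  rw [dx_coeff, coeff_map, coeff_map, dx_coeff, coe_mapRingHom, derivative_map]

theorem top_map {S : Type} [CommRing S] (φ : R →+* S) (P : R[X][X]) :
    top d (P.map (mapRingHom φ)) = (top d P).map φ := by
  ext i
  rw [top_coeff, coeff_map, coeff_map, top_coeff]
  split_ifs
  · rw [coe_mapRingHom, coeff_map]
  · rw [map_zero]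

theorem plane_map {S : Type} [CommRing S] (φ : R →+* S) (hG : IsPlane d G) :
    IsPlane d (G.map (mapRingHom φ)) := by
  refine ⟨?_, ?_⟩
  · intro i j h
    apply hG.1 i j
    intro h0
    apply h
    rw [coeff_map, coe_mapRingHom, coeff_map, h0, map_zero]
  · rw [coeff_map, hG.2, map_one]

theorem good_map {S : Type} [CommRing S] (φ : R →+* S) (hG : Good d G) :
    Good d (G.map (mapRingHom φ)) := by
  obtain ⟨h1, ⟨u, v, s, h2⟩, h3⟩ := hG
  refine ⟨plane_map φ h1, ⟨u.map (mapRingHom φ), v.map (mapRingHom φ), s.map (mapRingHom φ), ?_⟩, ?_⟩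
  · have h4 := congrArg (fun P : R[X][X] => P.map (mapRingHom φ)) h2
    simp only [Polynomial.map_add, Polynomial.map_mul, Polynomial.map_one] at h4
    rw [dx_map, derivative_map]
    exact h4
  · rw [top_map, derivative_map]
    exact h3.map (mapRingHom φ)

end

theorem good_der {F : Type} [Field F] {d : ℕ} (hd : 0 < d) {G : F[X][X]} (hG : Good d G) :
    derivative G ≠ 0 := by
  intro h0
  have h1 : derivative (top d G) = 0 := by
    ext i
    rw [coeff_zero, coeff_derivative, top_coeff]
    split_ifs with hi
    · have h2 : (derivative G).coeff i = 0 := by rw [h0, coeff_zero]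
      rw [coeff_derivative] at h2
      have h3 := congrArg (fun P : F[X] => P.coeff (d - (i + 1))) h2
      simp only [coeff_zero] at h3
      have h4 : ((i : F[X]) + 1) = C ((i : F) + 1) := by simp
      rw [h4, coeff_mul_C] at h3
      exact h3
    · rw [zero_mul]
  have h2 := hG.2.2
  rw [h1, isCoprime_zero_right] at h2
  have h3 := natDegree_eq_zero_of_isUnit h2
  have h4 : d ≤ (top d G).natDegree := by
    refine le_natDegree_of_ne_zero ?_
    rw [top_coeff_d hG.1]
    exact one_ne_zero
  omega

/-- a nonzero polynomial in `x` in the ideal generated by `G` and its derivative -/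
theorem exists_D' {F : Type} [Field F] {d n : ℕ} (hd : 0 < d) {G : F[X][X]} (hmon : G.Monic)
    (hdeg : G.natDegree = d) (hn : ∀ i, (G.coeff i).natDegree ≤ n) (hder : derivative G ≠ 0)
    (hirr : Irreducible G) :
    ∃ (A B : F[X][X]) (D : F[X]), A * G + B * derivative G = C D ∧ D ≠ 0 ∧
      D.natDegree ≤ (d + (d - 1)) * n := by
  have hdd : (derivative G).natDegree ≤ d - 1 := by
    have := natDegree_derivative_le G
    rwa [hdeg] at this
  obtain ⟨p, q, -, -, e⟩ := exists_mul_add_mul_eq_C_resultant G (derivative G) (m := d)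
    (n := (derivative G).natDegree) hdeg.le le_rfl (Or.inl (by omega))
  refine ⟨p, q, resultant G (derivative G) d (derivative G).natDegree, ?_, ?_, ?_⟩
  · rw [mul_comm p, mul_comm q, e]
  · intro h0
    have hinj : Function.Injective (algebraMap F[X] (RatFunc F)) :=
      IsFractionRing.injective F[X] (RatFunc F)
    have h1 := resultant_map_map G (derivative G) d (derivative G).natDegree
      (algebraMap F[X] (RatFunc F))
    rw [h0, map_zero] at h1
    have h2 : (G.map (algebraMap F[X] (RatFunc F))).natDegree = d := by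
      rw [natDegree_map_eq_of_injective hinj, hdeg]
    have h3 : ((derivative G).map (algebraMap F[X] (RatFunc F))).natDegree =
        (derivative G).natDegree := natDegree_map_eq_of_injective hinj _
    have h4 : resultant (G.map (algebraMap F[X] (RatFunc F)))
        ((derivative G).map (algebraMap F[X] (RatFunc F))) = 0 := by
      rw [h2, h3]
      exact h1
    rw [resultant_eq_zero_iff] at h4
    apply h4.2
    have hirrK : Irreducible (G.map (algebraMap F[X] (RatFunc F))) :=
      (hmon.irreducible_iff_irreducible_map_fraction_map (K := RatFunc F)).1 hirr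
    rw [hirrK.coprime_iff_not_dvd]
    intro hdvd
    have h5 : (derivative G).map (algebraMap F[X] (RatFunc F)) ≠ 0 := by
      rw [Ne, Polynomial.map_eq_zero_iff hinj]
      exact hder
    have h6 := natDegree_le_of_dvd hdvd h5
    rw [h2, h3] at h6
    omega
  · refine (natDegree_resultant_le _ _ _ _ hn (deriv_coeff_deg _ hn)).trans ?_
    exact Nat.mul_le_mul_right _ (by omega)

end Pool.Agent.Zk78.CB
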