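import Pool.Agent.Zk78.CB.Z0
import Pool.Agent.R410.PW.Weil

/-!
# Pencils of `C_ab` curves: the uniform bound of Weil
-/

set_option autoImplicit false
set_option linter.all false

open Polynomial

namespace Pool.Agent.Zk78.CB

open Pool.Agent.Zk97.CB Pool.Agent.R410.PW

theorem t_Z (hW : StW) : StZ := by
  intro l n hl hn hln
  refine ⟨(WC l n ((l + (l - 1)) * n) : ℝ), Nat.cast_nonneg _, ?_⟩
  intro F _ _ G hlF hG
  have hirr : Irreducible G := (hW F l n hl hn hln G hG).1
  have hirrk : Irreducible (G.map (mapRingHom (algebraMap F (AlgebraicClosure F)))) :=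
    (hW (AlgebraicClosure F) l n hl hn hln _ (cab_map _ hG)).1
  obtain ⟨A, B, D, hAB, hD, hδ⟩ := exists_D hl hlF hG hirr
  have hdeg := cab_natDegree hl hG
  have key := weil (AlgebraicClosure F) (cab_monic hl hG) (by rw [hdeg]; exact hl) hAB hD hδ
    (cab_coeff_deg hl hG) hirrk
  rw [hdeg] at key
  have hcard : Nat.card {P : F × F // evalEval P.1 P.2 G = 0} =
      {z : F × F | evalEval z.1 z.2 G = 0}.ncard := rfl
  rw [hcard]
  exact key

end Pool.Agent.Zk78.CB
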